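import Mathlib

/-! Smooth maps into a complete (closed) subspace (helper803). -/

set_option autoImplicit false

open Set Filter Topology
open scoped ContDiff

namespace Pool.Agent.W803.Uni

universe u

variable {P : Type u} [NormedAddCommGroup P] [NormedSpace ℝ P]

/-- postcomposition with a linear isometry as a linear isometry -/
noncomputable def post {S F : Type u} [NormedAddCommGroup S] [NormedSpace ℝ S]
    [NormedAddCommGroup F] [NormedSpace ℝ F] (ι : S →ₗᵢ[ℝ] F) : (P →L[ℝ] S) →ₗᵢ[ℝ] (P →L[ℝ] F) where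
  toFun A := ι.toContinuousLinearMap.comp A
  map_add' A B := by ext x; simp
  map_smul' c A := by ext x; simp
  norm_map' A := ι.norm_toContinuousLinearMap_comp

theorem differentiableAt_of_isometry {S F : Type u} [NormedAddCommGroup S] [NormedSpace ℝ S]
    [NormedAddCommGroup F] [NormedSpace ℝ F] [CompleteSpace S] (ι : S →ₗᵢ[ℝ] F) {f : P → S} {x : P}
    (h : DifferentiableAt ℝ (fun y => ι (f y)) x) : DifferentiableAt ℝ f x := by
  set g' := fderiv ℝ (fun y => ι (f y)) x with hg'
  have hg : HasFDerivAt (fun y => ι (f y)) g' x := h.hasFDerivAt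
  have hcl : IsClosed (Set.range ι) := ι.isometry.isClosedEmbedding.isClosed_range
  have hmem : ∀ v : P, g' v ∈ Set.range ι := by
    intro v
    have h1 : HasDerivAt (fun t : ℝ => x + t • v) v 0 := by
      simpa using ((hasDerivAt_id (0 : ℝ)).smul_const v).const_add x
    have h2 : HasDerivAt (fun t : ℝ => ι (f (x + t • v))) (g' v) 0 := by
      have h3 : HasFDerivAt (fun y => ι (f y)) g' (x + (0 : ℝ) • v) := by simpa using hg
      exact h3.comp_hasDerivAt 0 h1
    have h3 := hasDerivAt_iff_tendsto_slope.1 h2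
    refine hcl.mem_of_tendsto h3 (Eventually.of_forall fun t => ?_)
    refine ⟨t⁻¹ • (f (x + t • v) - f (x + (0 : ℝ) • v)), ?_⟩
    rw [map_smul, map_sub, slope_def_module, sub_zero]
  have hmem' : ∀ v : P, g' v ∈ LinearMap.range ι.toLinearMap := fun v => hmem v
  set A : P →L[ℝ] S := (ι.equivRange.symm.toContinuousLinearEquiv :
    LinearMap.range ι.toLinearMap →L[ℝ] S).comp (g'.codRestrict _ hmem') with hA
  have hιA : ∀ v, ι (A v) = g' v := by
    intro v
    have h4 : ι.equivRange (A v) = ⟨g' v, hmem' v⟩ := by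
      rw [hA]
      exact ι.equivRange.apply_symm_apply _
    exact congrArg Subtype.val h4
  refine ⟨A, ?_⟩
  rw [hasFDerivAt_iff_isLittleO] at hg ⊢
  refine (Asymptotics.isLittleO_norm_left.1 ?_)
  have h5 : (fun y => ‖f y - f x - A (y - x)‖) = fun y => ‖ι (f y) - ι (f x) - g' (y - x)‖ := by
    funext y
    rw [← hιA, ← map_sub, ← map_sub, ι.norm_map]
  rw [h5]
  exact Asymptotics.isLittleO_norm_left.2 hg

theorem contDiffOn_nat_of_isometry (n : ℕ) : ∀ {S F : Type u} [NormedAddCommGroup S]
    [NormedSpace ℝ S] [NormedAddCommGroup F] [NormedSpace ℝ F] [CompleteSpace S]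
    (ι : S →ₗᵢ[ℝ] F) {f : P → S} {s : Set P}, IsOpen s →
    ContDiffOn ℝ n (fun y => ι (f y)) s → ContDiffOn ℝ n f s := by
  induction n with
  | zero =>
    intro S F _ _ _ _ _ ι f s hs h
    rw [Nat.cast_zero, contDiffOn_zero] at h ⊢
    exact ι.isometry.isEmbedding.continuousOn_iff.2 h
  | succ n ih =>
    intro S F _ _ _ _ _ ι f s hs h
    have hd : ∀ x ∈ s, DifferentiableAt ℝ f x := fun x hx =>
      differentiableAt_of_isometry ι
        ((h.differentiableOn (by simp)) x hx |>.differentiableAt (hs.mem_nhds hx))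
    push_cast at h ⊢
    rw [contDiffOn_succ_iff_fderiv_of_isOpen hs] at h ⊢
    refine ⟨fun x hx => (hd x hx).differentiableWithinAt, by simp, ?_⟩
    have h1 : ContDiffOn ℝ n (fun x => post ι (fderiv ℝ f x)) s := by
      refine h.2.2.congr fun x hx => ?_
      have h2 := (ι.toContinuousLinearMap.hasFDerivAt.comp x (hd x hx).hasFDerivAt).fderiv
      exact h2.symm
    exact ih (post ι) hs h1

/-- smoothness on an open set into a complete space can be tested after a linear isometry -/
theorem contDiffOn_of_isometry {n : ℕ∞} {S F : Type u} [NormedAddCommGroup S]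
    [NormedSpace ℝ S] [NormedAddCommGroup F] [NormedSpace ℝ F] [CompleteSpace S]
    (ι : S →ₗᵢ[ℝ] F) {f : P → S} {s : Set P} (hs : IsOpen s)
    (h : ContDiffOn ℝ n (fun y => ι (f y)) s) : ContDiffOn ℝ n f s := by
  refine contDiffOn_iff_forall_nat_le.2 fun m hm => ?_
  exact contDiffOn_nat_of_isometry m ι hs (h.of_le (by exact_mod_cast hm))

theorem contDiff_of_isometry {n : ℕ∞} {S F : Type u} [NormedAddCommGroup S]
    [NormedSpace ℝ S] [NormedAddCommGroup F] [NormedSpace ℝ F] [CompleteSpace S]
    (ι : S →ₗᵢ[ℝ] F) {f : P → S}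
    (h : ContDiff ℝ n (fun y => ι (f y))) : ContDiff ℝ n f := by
  rw [← contDiffOn_univ] at h ⊢
  exact contDiffOn_of_isometry ι isOpen_univ h

end Pool.Agent.W803.Uni
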