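import Pool.Agent.W668.Uni.Stmts
import Pool.Agent.GR.Flow
import Pool.Agent.Helper27.Har.P_global_ode

/-! UNI-FLOW: the smooth global flow of `v' = p, p' = Φ(p) - v` (helper803). -/

set_option autoImplicit false

open Set Filter Topology
open scoped ContDiff NNReal

namespace Pool.Agent.W803.Uni
open Pool.Agent.W668.Uni

theorem flow : P_flow := by
  intro Φ hΦ hb
  have hΦL : LipschitzWith 1 Φ := by
    refine lipschitzWith_of_nnnorm_deriv_le (hΦ.differentiable (by simp)) fun x => ?_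
    have h := hb x
    rw [← NNReal.coe_le_coe, coe_nnnorm, Real.norm_eq_abs, NNReal.coe_one]
    linarith
  set X : C(ℝ × ℝ, ℝ × ℝ) := ⟨fun z => (z.2, Φ z.2 - z.1),
    continuous_snd.prodMk ((hΦ.continuous.comp continuous_snd).sub continuous_fst)⟩ with hX
  have hXs : ∀ m : ℕ, ContDiff ℝ m X := fun m => by
    have h1 : ContDiff ℝ m Φ := hΦ.of_le (by exact_mod_cast le_top)
    exact contDiff_snd.prodMk ((h1.comp contDiff_snd).sub contDiff_fst)
  have hK : LipschitzWith 2 X := by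
    refine LipschitzWith.of_dist_le_mul fun z w => ?_
    have h1 : dist z.1 w.1 ≤ dist z w := le_max_left _ _
    have h2 : dist z.2 w.2 ≤ dist z w := le_max_right _ _
    have h3 : dist (Φ z.2) (Φ w.2) ≤ dist z.2 w.2 := by
      simpa using hΦL.dist_le_mul z.2 w.2
    have h0 : 0 ≤ dist z w := dist_nonneg
    show max (dist z.2 w.2) (dist (Φ z.2 - z.1) (Φ w.2 - w.1)) ≤ (2 : ℝ≥0) * dist z w
    rw [NNReal.coe_ofNat]
    refine max_le (by linarith) ?_
    have h4 : dist (Φ z.2 - z.1) (Φ w.2 - w.1) ≤ dist (Φ z.2) (Φ w.2) + dist z.1 w.1 :=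
      dist_sub_sub_le _ _ _ _
    linarith
  choose γ h0 h1 using fun x : ℝ × ℝ => Haraux.global_ode (fun _ => X) 2 (fun _ => hK)
    (X.continuous.comp continuous_snd) x
  have hg : Pool.Agent.GR.Flow.IsFlowOf X (fun t x => γ x t) := ⟨h0, h1⟩
  have hs : ContDiff ℝ ∞ (fun p : ℝ × (ℝ × ℝ) => γ p.2 p.1) := by
    refine contDiff_infty.2 fun m => ?_
    have h2 := Pool.Agent.GR.Flow.contDiff_flow (m := m + 1) (Nat.succ_ne_zero m)
      (hXs _) hK hg
    exact h2.of_le (by exact_mod_cast Nat.le_succ m)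
  have hlin : ContDiff ℝ ∞ (fun q : (Fin 2 → ℝ) × ℝ => (q.2, (q.1 0, q.1 1))) := by
    fun_prop
  have hc : ContDiff ℝ ∞ (fun q : (Fin 2 → ℝ) × ℝ => γ (q.1 0, q.1 1) q.2) := hs.comp hlin
  refine ⟨fun q => (γ (q.1 0, q.1 1) q.2).1, fun q => (γ (q.1 0, q.1 1) q.2).2,
    contDiff_fst.comp hc, contDiff_snd.comp hc, fun x θ => ⟨?_, ?_, ?_, ?_⟩⟩
  · have h2 := h1 (x 0, x 1) θ
    exact (ContinuousLinearMap.fst ℝ ℝ ℝ).hasFDerivAt.comp_hasDerivAt θ h2
  · have h2 := h1 (x 0, x 1) θ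
    exact (ContinuousLinearMap.snd ℝ ℝ ℝ).hasFDerivAt.comp_hasDerivAt θ h2
  · simp only [h0]
  · simp only [h0]

/-- UNI-FLOW -/
theorem flow_main : P_flow := flow

end Pool.Agent.W803.Uni
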