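import Pool.Agent.W668.Uni.Stmts
import Pool.Agent.GR.Flow
import Pool.Agent.W803.Uni.Isom

/-! UNI-JET: smooth functions of two variables give smooth curves in `E 3` (helper803). -/

set_option autoImplicit false

open Set Filter Topology MeasureTheory
open scoped ContDiff NNReal

namespace Pool.Agent.W803.Uni
open Pool.Agent.W668.Uni

/-! ### elements of `E k` are determined by the zeroth component -/

theorem cont_ev (f : X) (x : ℝ) : Continuous (fun s : ℝ => evX f (Real.exp (-s) * x)) :=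
  (continuous_evX f).comp (by fun_prop)

theorem ext_evX {f g : X} (h : ∀ x : ℝ, 0 ≤ x → x ≤ 1 → evX f x = evX g x) : f = g := by
  ext x
  have h1 := h x x.2.1 x.2.2
  unfold evX at h1
  rwa [projIcc_val] at h1

theorem E_ext_aux {k : ℕ} (u v : E k) (h : z0 u = z0 v) : ∀ j : ℕ, ∀ hj : j < k + 1,
    (u : Fin (k + 1) → X) ⟨j, hj⟩ = (v : Fin (k + 1) → X) ⟨j, hj⟩ := by
  intro j
  induction j with
  | zero => intro _; exact h
  | succ j ih =>
    intro hj
    have hj' : j < k + 1 := by omega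
    have hjk : j < k := by omega
    have h0 := ih hj'
    refine ext_evX fun x hx0 hx1 => ?_
    have hu := u.2 ⟨j, hjk⟩
    have hv := v.2 ⟨j, hjk⟩
    have e1 : (⟨j, hjk⟩ : Fin k).castSucc = (⟨j, hj'⟩ : Fin (k + 1)) := rfl
    have e2 : (⟨j, hjk⟩ : Fin k).succ = (⟨j + 1, hj⟩ : Fin (k + 1)) := rfl
    have hint : ∀ a : ℝ, 0 ≤ a →
        ∫ s in (0 : ℝ)..a, evX ((u : Fin (k + 1) → X) ⟨j + 1, hj⟩) (Real.exp (-s) * x) =
        ∫ s in (0 : ℝ)..a, evX ((v : Fin (k + 1) → X) ⟨j + 1, hj⟩) (Real.exp (-s) * x) := by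
      intro a ha
      have h1 := hu a ha x hx0 hx1
      have h2 := hv a ha x hx0 hx1
      rw [e1, e2] at h1 h2
      rw [← h1, ← h2, h0]
    have hd : ∀ w : E k, HasDerivWithinAt (fun a : ℝ => ∫ s in (0 : ℝ)..a,
        evX ((w : Fin (k + 1) → X) ⟨j + 1, hj⟩) (Real.exp (-s) * x))
        (evX ((w : Fin (k + 1) → X) ⟨j + 1, hj⟩) x) (Ici 0) 0 := by
      intro w
      have h3 := intervalIntegral.integral_hasDerivAt_right
        ((cont_ev ((w : Fin (k + 1) → X) ⟨j + 1, hj⟩) x).intervalIntegrable 0 0)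
        ((cont_ev _ x).stronglyMeasurableAtFilter _ _) (cont_ev _ x).continuousAt
      rw [neg_zero, Real.exp_zero, one_mul] at h3
      exact h3.hasDerivWithinAt
    have h4 := (hd v).congr (fun a ha => hint a ha) (hint 0 le_rfl)
    exact (uniqueDiffOn_Ici (0 : ℝ) 0 self_mem_Ici).eq_deriv _ (hd u) h4

theorem E_ext (k : ℕ) (u v : E k) (h : z0 u = z0 v) : u = v := by
  apply Subtype.ext
  funext i
  exact E_ext_aux u v h i.1 i.2

/-! ### `E k` is complete -/

theorem norm_evX_sub (f g : X) (x : ℝ) : |evX f x - evX g x| ≤ ‖f - g‖ := by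
  have := (f - g).norm_coe_le_norm (projIcc 0 1 zero_le_one x)
  rwa [ContinuousMap.sub_apply, Real.norm_eq_abs] at this

theorem continuous_int (a x : ℝ) :
    Continuous (fun f : X => ∫ s in (0 : ℝ)..a, evX f (Real.exp (-s) * x)) := by
  have h : LipschitzWith (Real.toNNReal |a|)
      (fun f : X => ∫ s in (0 : ℝ)..a, evX f (Real.exp (-s) * x)) := by
    refine LipschitzWith.of_dist_le_mul fun f g => ?_
    rw [Real.dist_eq, ← intervalIntegral.integral_sub ((cont_ev f x).intervalIntegrable _ _)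
      ((cont_ev g x).intervalIntegrable _ _), ← Real.norm_eq_abs]
    have h1 := intervalIntegral.norm_integral_le_of_norm_le_const (a := 0) (b := a)
      (f := fun s => evX f (Real.exp (-s) * x) - evX g (Real.exp (-s) * x)) (C := ‖f - g‖)
      (fun s _ => by rw [Real.norm_eq_abs]; exact norm_evX_sub f g _)
    rw [sub_zero, mul_comm] at h1
    rwa [Real.coe_toNNReal _ (abs_nonneg a), dist_eq_norm]
  exact h.continuous

theorem continuous_ev (x : ℝ) : Continuous (fun f : X => evX f x) :=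
  continuous_eval_const _

theorem isClosed_E (k : ℕ) : IsClosed ((E k : Submodule ℝ (Fin (k + 1) → X)) : Set (Fin (k + 1) → X)) := by
  have h : ((E k : Submodule ℝ (Fin (k + 1) → X)) : Set (Fin (k + 1) → X)) =
      ⋂ (i : Fin k) (a : ℝ) (_ : 0 ≤ a) (x : ℝ) (_ : 0 ≤ x) (_ : x ≤ 1),
        {u | evX (u i.castSucc) x - evX (u i.castSucc) (Real.exp (-a) * x)
          = ∫ s in (0 : ℝ)..a, evX (u i.succ) (Real.exp (-s) * x)} := by
    ext u
    simp only [mem_iInter]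
    rfl
  rw [h]
  refine isClosed_iInter fun i => isClosed_iInter fun a => isClosed_iInter fun _ =>
    isClosed_iInter fun x => isClosed_iInter fun _ => isClosed_iInter fun _ => ?_
  have c1 : ∀ (j : Fin (k + 1)), Continuous (fun u : Fin (k + 1) → X => u j) :=
    fun j => continuous_apply j
  exact isClosed_eq (((continuous_ev x).comp (c1 i.castSucc)).sub
    ((continuous_ev (Real.exp (-a) * x)).comp (c1 i.castSucc)))
    ((continuous_int a x).comp (c1 i.succ))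

theorem complete_E (k : ℕ) : CompleteSpace (E k) := (isClosed_E k).completeSpace_coe

/-! ### the jets -/

/-- iterated `x ∂_x` -/
noncomputable def UU (u : ℝ × ℝ → ℝ) : ℕ → ℝ × ℝ → ℝ
  | 0 => u
  | (i + 1) => fun p => p.2 * fderiv ℝ (UU u i) p (0, 1)

theorem smooth_UU {u : ℝ × ℝ → ℝ} (hu : ContDiff ℝ ∞ u) (i : ℕ) : ContDiff ℝ ∞ (UU u i) := by
  induction i with
  | zero => exact hu
  | succ i ih =>
    have h1 : ContDiff ℝ ∞ (fderiv ℝ (UU u i)) := ih.fderiv_right (by simp)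
    exact contDiff_snd.mul (h1.clm_apply contDiff_const)

/-- the function of parameter and variable -/
noncomputable def HH (u : ℝ × ℝ → ℝ) (i : ℕ) (q : (ℝ × ℝ) × ℝ) : ℝ :=
  UU u i (q.1.1, Real.exp (-q.1.2 ^ 2) * q.2)

theorem smooth_HH {u : ℝ × ℝ → ℝ} (hu : ContDiff ℝ ∞ u) (i : ℕ) : ContDiff ℝ ∞ (HH u i) := by
  have h1 : ContDiff ℝ ∞ (fun q : (ℝ × ℝ) × ℝ => (q.1.1, Real.exp (-q.1.2 ^ 2) * q.2)) := by
    fun_prop
  exact (smooth_UU hu i).comp h1

/-- the component of the jet -/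
noncomputable def JJ (u : ℝ × ℝ → ℝ) (hu : ContDiff ℝ ∞ u) (i : ℕ) (z : ℝ × ℝ) : X :=
  ⟨fun x : I1 => HH u i (z, x), (smooth_HH hu i).continuous.comp (by fun_prop)⟩

/-- the curve `x ↦ (z, x)` -/
noncomputable def crv (z : ℝ × ℝ) : C(unitInterval, (ℝ × ℝ) × ℝ) :=
  ⟨fun x => (z, (x : ℝ)), by fun_prop⟩

theorem smooth_crv : ContDiff ℝ ∞ crv := by
  -- affine map
  let A : (ℝ × ℝ) →L[ℝ] C(unitInterval, (ℝ × ℝ) × ℝ) := LinearMap.mkContinuous
    { toFun := fun z => (⟨fun _ => (z, (0 : ℝ)), continuous_const⟩ : C(unitInterval, (ℝ × ℝ) × ℝ))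
      map_add' := fun z w => by
        ext x <;> simp
      map_smul' := fun c z => by
        ext x <;> simp } 1 (fun z => by
        rw [one_mul]
        refine (ContinuousMap.norm_le _ (norm_nonneg _)).2 fun x => ?_
        show ‖(z, (0 : ℝ))‖ ≤ ‖z‖
        rw [Prod.norm_def]
        simp)
  have h : crv = fun z => A z + crv 0 := by
    funext z
    ext x <;> simp [crv, A]
  rw [h]
  exact A.contDiff.add contDiff_const

theorem smooth_JJ {u : ℝ × ℝ → ℝ} (hu : ContDiff ℝ ∞ u) (i : ℕ) : ContDiff ℝ ∞ (JJ u hu i) := by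
  refine contDiff_infty.2 fun m => ?_
  have h1 : ContDiff ℝ m (⟨HH u i, (smooth_HH hu i).continuous⟩ : C((ℝ × ℝ) × ℝ, ℝ)) :=
    (smooth_HH hu i).of_le (by exact_mod_cast le_top)
  have h2 := Pool.Agent.GR.Flow.contDiff_nem m
    (⟨HH u i, (smooth_HH hu i).continuous⟩ : C((ℝ × ℝ) × ℝ, ℝ)) h1
  have h3 : ContDiff ℝ m crv := smooth_crv.of_le (by exact_mod_cast le_top)
  exact h2.comp h3

theorem ev_JJ {u : ℝ × ℝ → ℝ} (hu : ContDiff ℝ ∞ u) (i : ℕ) (z : ℝ × ℝ) {x : ℝ} (h0 : 0 ≤ x)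
    (h1 : x ≤ 1) : evX (JJ u hu i z) x = UU u i (z.1, Real.exp (-z.2 ^ 2) * x) := by
  unfold evX
  rw [projIcc_of_mem zero_le_one (⟨h0, h1⟩ : x ∈ Icc (0 : ℝ) 1)]
  rfl

theorem mem_E {u : ℝ × ℝ → ℝ} (hu : ContDiff ℝ ∞ u) (z : ℝ × ℝ) :
    (fun i : Fin 4 => JJ u hu i z) ∈ E 3 := by
  intro i a ha x hx0 hx1
  show evX (JJ u hu i z) x - evX (JJ u hu i z) (Real.exp (-a) * x) =
    ∫ s in (0 : ℝ)..a, evX (JJ u hu (i + 1 : ℕ) z) (Real.exp (-s) * x)
  have hmem : ∀ s : ℝ, 0 ≤ s → 0 ≤ Real.exp (-s) * x ∧ Real.exp (-s) * x ≤ 1 := by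
    intro s hs
    have h1 : Real.exp (-s) ≤ 1 := Real.exp_le_one_iff.2 (by linarith)
    have h2 := (Real.exp_pos (-s)).le
    exact ⟨mul_nonneg h2 hx0, by nlinarith⟩
  set κ : ℝ := Real.exp (-z.2 ^ 2) with hκ
  have hd : ∀ s : ℝ, HasDerivAt (fun s : ℝ => -UU u i (z.1, κ * (Real.exp (-s) * x)))
      (UU u (i + 1 : ℕ) (z.1, κ * (Real.exp (-s) * x))) s := by
    intro s
    have h1 : HasDerivAt (fun s : ℝ => κ * (Real.exp (-s) * x)) (κ * (-Real.exp (-s) * x)) s := by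
      have h2 : HasDerivAt (fun s : ℝ => Real.exp (-s)) (-Real.exp (-s)) s := by
        simpa using (hasDerivAt_neg s).exp
      exact (h2.mul_const x).const_mul κ
    have h2 : HasDerivAt (fun s : ℝ => (z.1, κ * (Real.exp (-s) * x)))
        ((0 : ℝ), κ * (-Real.exp (-s) * x)) s := (hasDerivAt_const s z.1).prodMk h1
    have h3 := ((smooth_UU hu i).differentiable (by simp)
      (z.1, κ * (Real.exp (-s) * x))).hasFDerivAt.comp_hasDerivAt s h2
    refine h3.neg.congr_deriv ?_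
    have h4 : ((0 : ℝ), κ * (-Real.exp (-s) * x)) = (-(κ * (Real.exp (-s) * x))) • ((0 : ℝ), (1 : ℝ)) := by
      ext
      · simp
      · simp
    rw [h4, map_smul, smul_eq_mul]
    show -(-(κ * (Real.exp (-s) * x)) * fderiv ℝ (UU u i) (z.1, κ * (Real.exp (-s) * x)) (0, 1)) =
      κ * (Real.exp (-s) * x) * fderiv ℝ (UU u i) (z.1, κ * (Real.exp (-s) * x)) (0, 1)
    ring
  have hint : ∫ s in (0 : ℝ)..a, evX (JJ u hu (i + 1 : ℕ) z) (Real.exp (-s) * x) =
      ∫ s in (0 : ℝ)..a, UU u (i + 1 : ℕ) (z.1, κ * (Real.exp (-s) * x)) := by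
    refine intervalIntegral.integral_congr fun s hs => ?_
    rw [uIcc_of_le ha] at hs
    exact ev_JJ hu _ z (hmem s hs.1).1 (hmem s hs.1).2
  have hcont : Continuous (fun s : ℝ => UU u (i + 1 : ℕ) (z.1, κ * (Real.exp (-s) * x))) :=
    (smooth_UU hu _).continuous.comp (by fun_prop)
  rw [hint, intervalIntegral.integral_eq_sub_of_hasDerivAt (fun s _ => hd s)
    (hcont.intervalIntegrable _ _), ev_JJ hu _ z hx0 hx1, ev_JJ hu _ z (hmem a ha).1 (hmem a ha).2,
    neg_zero, Real.exp_zero, one_mul]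
  ring

theorem jet : P_jet := by
  refine ⟨E_ext, fun u hu => ?_⟩
  have hu' : ContDiff ℝ ∞ (fun p : ℝ × ℝ => u p.1 p.2) := hu
  set v : ℝ × ℝ → ℝ := fun p => u p.1 p.2 with hv
  refine ⟨fun z => ⟨fun i : Fin 4 => JJ v hu' i z, mem_E hu' z⟩, ?_, ?_⟩
  · have := complete_E 3
    refine contDiff_of_isometry (n := ⊤) (E 3).subtypeₗᵢ ?_
    exact contDiff_pi.2 fun i => smooth_JJ hu' i
  · intro ε α x h0 h1
    exact ev_JJ hu' 0 (ε, α) h0 h1

/-- UNI-JET -/
theorem jet_main : P_jet := jet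

end Pool.Agent.W803.Uni
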